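import Pool.Agent.Lib.helper16.AR2

set_option autoImplicit false

open MeasureTheory Pool.Agent.Lib.helper16.AR

namespace Pool.Agent.Results.MP_646863_pr.Disproof

/-- every bounded function harmonic for simple random walk on the Cayley graph `(G, S)` is
constant -/
def Liouville {G : Type} [Group G] (S : Finset G) : Prop :=
  ∀ f : G → ℝ, (∃ B, ∀ g, |f g| ≤ B) → (∀ g, f g = (1 / (S.card : ℝ)) * ∑ s ∈ S, f (g * s)) →
    ∀ x y, f x = f y

/-- A finitely generated group that is Liouville for a finite symmetric generating set but is not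
algebraically recurrent. -/
theorem result : ∃ (G : Type) (_ : Group G) (_ : Countable G) (_ : MeasurableSpace G)
    (_ : DiscreteMeasurableSpace G) (S : Finset G),
    1 ∉ S ∧ (∀ s ∈ S, s⁻¹ ∈ S) ∧ Subgroup.closure (S : Set G) = ⊤ ∧ Liouville S ∧
    ∃ μ : PMF G, Adm μ ∧ 0 < law μ {ω | Sg ω 1 ≠ ⊤} := by
  letI : MeasurableSpace LZ := ⊤
  haveI : DiscreteMeasurableSpace LZ := ⟨fun _ => trivial⟩
  classical
  obtain ⟨μ, h1, h2⟩ := nonAR_LZ (MonoidHom.id LZ) LZ.a LZ.t rfl rfl LZ.gen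
  have h11 : (1 : LaurentPolynomial ℤ) ≠ -1 := by
    intro h
    have := congrArg (LaurentPolynomial.eval₂ (RingHom.id ℤ) 1) h
    simp at this
  have n1 : LZ.a ∉ ({LZ.a⁻¹, LZ.t, LZ.t⁻¹} : Finset LZ) := by
    simp [LZ.ext_iff, LZ.a, LZ.t, h11]
  have n2 : LZ.a⁻¹ ∉ ({LZ.t, LZ.t⁻¹} : Finset LZ) := by simp [LZ.ext_iff, LZ.a, LZ.t]
  have n3 : LZ.t ≠ LZ.t⁻¹ := by simp [LZ.ext_iff, LZ.t]
  refine ⟨LZ, inferInstance, inferInstance, inferInstance, inferInstance,
    {LZ.a, LZ.a⁻¹, LZ.t, LZ.t⁻¹}, by simp [LZ.ext_iff, LZ.a, LZ.t], by simp, ?_, ?_,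
    μ, h1, pos_iff_ne_zero.2 fun h => h2 (ae_iff.2 h)⟩
  · rw [eq_top_iff, ← LZ.gen]
    apply Subgroup.closure_mono
    rintro _ (rfl | rfl) <;> simp
  · rintro f ⟨B, hB⟩ hf
    apply LZ.liouville f B hB
    intro x
    have := hf x
    rw [Finset.card_insert_of_notMem n1, Finset.card_insert_of_notMem n2, Finset.card_pair n3,
      Finset.sum_insert n1, Finset.sum_insert n2, Finset.sum_pair n3] at this
    push_cast at this
    linarith

end Pool.Agent.Results.MP_646863_pr.Disproof
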